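import Pool.Agent.helper2.BB.Spec

set_option autoImplicit false

namespace BB

open Metric MeasureTheory Set Filter Topology Asymptotics
open Pool.Agent.helper37.PR

theorem A4_Sg (w : ℂ) (hw : 1 - w ≠ 0) : AnalyticAt ℂ Sg w := by
  unfold Sg
  exact (analyticAt_const.add analyticAt_id).div (analyticAt_const.sub analyticAt_id) hw

theorem A4_Bs (q : ℝ) (w : ℂ) (hw : 1 - w ≠ 0) : AnalyticAt ℂ (Bs q) w := by
  unfold Bs
  exact analyticAt_const.add (analyticAt_const.mul (((A4_Sg w hw).pow 2).sub analyticAt_const))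

theorem A4 (hA1 : A1_stmt) : A4_stmt := by
  intro q hq hq1
  have hR : AnalyticOnNhd ℂ Rf (ball 0 1) := by
    intro w hw
    rw [mem_ball_zero_iff] at hw
    obtain ⟨h1, -, -, -, -, -, -, -, h9, -⟩ := hA1 q w hq hq1 hw
    unfold Rf
    exact (A4_Sg w h9).cpow analyticAt_const (Or.inl h1)
  have hQ : AnalyticOnNhd ℂ (Qf q) (ball 0 1) := by
    intro w hw
    rw [mem_ball_zero_iff] at hw
    obtain ⟨-, -, -, h4, -, -, -, -, h9, -⟩ := hA1 q w hq hq1 hw
    unfold Qf
    exact (A4_Bs q w h9).cpow analyticAt_const h4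
  have hP : AnalyticOnNhd ℂ (psi q) (ball 0 1) := by
    intro w hw
    have hw' := mem_ball_zero_iff.1 hw
    obtain ⟨-, -, -, -, -, h6, -, -, -, -⟩ := hA1 q w hq hq1 hw'
    unfold psi
    refine (((hQ w hw).pow 2).sub analyticAt_const).div (((hQ w hw).pow 2).add analyticAt_const) ?_
    intro h
    have h2 : (Qf q w ^ 2 + 1).re = 0 := by
      have : (Qf q w ^ 2 + 1) = 0 := h
      rw [this]
      rfl
    rw [Complex.add_re, Complex.one_re] at h2
    linarith
  have hS : AnalyticOnNhd ℂ (sc q) (ball 0 1) := by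
    intro w hw
    have hw' := mem_ball_zero_iff.1 hw
    obtain ⟨-, -, -, -, -, -, -, -, h9, -⟩ := hA1 q w hq hq1 hw'
    unfold sc
    exact analyticAt_const.mul (((analyticAt_const.sub (hP w hw)).div
      (analyticAt_const.sub analyticAt_id) h9).pow 2)
  refine ⟨hR, hQ, hP, hS, ?_⟩
  intro ε w hw
  have hw' := mem_ball_zero_iff.1 hw
  obtain ⟨-, -, -, -, h5, -, -, -, -, -⟩ := hA1 q w hq hq1 hw'
  cases ε
  · have : rho false q = fun _ => (1 : ℂ) := by
      funext v
      rfl
    rw [this]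
    exact analyticAt_const
  · have : rho true q = fun v => Rf v / Qf q v := by
      funext v
      rfl
    rw [this]
    refine (hR w hw).div (hQ w hw) ?_
    intro h
    rw [h, Complex.zero_re] at h5
    exact lt_irrefl _ h5

end BB
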